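import Pool.Agent.helper21.OE.SpecC

set_option autoImplicit false

/-!
Row oe:CJS of the project OE (MP_2e0e07_nt): complex conjugation preserves the modular symbols.
-/

namespace Pool.Agent.OE

open MvPolynomial Matrix

theorem CJS_apply {d t : ℤ} {A : Type} [CommRing A] (φ : Sy d t A) (u v : Vec d t) :
    cj φ u v = sw (φ (cv u) (cv v)) := rfl

theorem CJS_smul {d t : ℤ} (c : Oz d t) (u : Vec d t) : cv (c • u) = star c • cv u := by
  funext i
  show star (c • u i) = star c • star (u i)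
  rw [smul_eq_mul, smul_eq_mul, star_mul, mul_comm]

/-- **CJS** -/
theorem CJS (hCMG : CMG_stmt) (hCJA : CJA_stmt) : CJS_stmt := by
  intro d t A _ f k N χ φ hχ h
  obtain ⟨-, hmv, -, hex, hcc, -, hcv0, -, hdvd, -⟩ := hCMG d t
  obtain ⟨hact, hhom, -, -, -⟩ := hCJA
  have hcv : ∀ u : Vec d t, u ≠ 0 → cv u ≠ 0 := fun u hu h0 => hu ((hcv0 u).1 h0)
  have hz : cv (0 : Vec d t) = 0 := (hcv0 0).2 rfl
  have hs : ∀ c : Oz d t, c ≠ 0 → star c ≠ 0 := fun c hc h0 => hc (star_eq_zero.1 h0)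
  refine ⟨fun v => ?_, fun u => ?_, fun u v w hu hv hw => ?_, fun c u v hc => ?_,
    fun c u v hc => ?_, fun u v => ?_, fun γ u v hγ => ?_⟩
  · rw [CJS_apply, hz, h.zero_left, map_zero]
  · rw [CJS_apply, hz, h.zero_right, map_zero]
  · rw [CJS_apply, CJS_apply, CJS_apply, ← map_add, h.add _ _ _ (hcv u hu) (hcv v hv) (hcv w hw)]
  · rw [CJS_apply, CJS_apply, CJS_smul, h.smul_left _ _ _ (hs c hc)]
  · rw [CJS_apply, CJS_apply, CJS_smul, h.smul_right _ _ _ (hs c hc)]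
  · rw [CJS_apply]
    exact hhom k _ (h.hom _ _)
  · obtain ⟨γ', hγ'⟩ := hex γ
    have h10 : γ'.val 1 0 = star (γ.val 1 0) := by rw [hγ']; rfl
    have h11 : γ'.val 1 1 = star (γ.val 1 1) := by rw [hγ']; rfl
    have hN : ((N : ℕ) : Oz d t) ∣ γ'.val 1 0 := by
      rw [h10]
      exact (hdvd N _).2 hγ
    rw [CJS_apply, CJS_apply, hmv, hmv, ← hγ', h.equiv γ' _ _ hN, map_smul, h11, hχ, hact, hγ', hcc]

end Pool.Agent.OE
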