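import Pool.Agent.helper21.OE.SpecA

/-! # MP_2e0e07: row DTU of project OE -/

set_option autoImplicit false

namespace Pool.Agent.OE

open MvPolynomial Matrix

theorem DTU (hNRU : NRU_stmt) (hREQ : REQ_stmt) : DTU_stmt := by
  intro d t hE ℓ hℓ γ hdiv
  have hprod : ((ℓ : ℕ) : Oz d t) ∣ γ.val 0 1 * γ.val 1 0 := by
    rcases hdiv with h | h
    · exact Dvd.dvd.mul_left h _
    · exact Dvd.dvd.mul_right h _
  obtain ⟨c, hc⟩ := hprod
  have hdet : γ.val.det = γ.val 0 0 * γ.val 1 1 - γ.val 0 1 * γ.val 1 0 := Matrix.det_fin_two _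
  have hunit : IsUnit γ.val.det := (Matrix.isUnit_iff_isUnit_det _).1 γ.isUnit
  have hD : γ.val 0 0 * γ.val 1 1 = γ.val.det + ((ℓ : ℕ) : Oz d t) * c := by
    rw [hdet, ← hc]
    ring
  obtain ⟨e, he⟩ := hunit.exists_right_inv
  refine ⟨(hREQ d t ℓ hℓ _).2 ⟨γ.val 1 1 * e, c * e, ?_⟩, (hREQ d t ℓ hℓ _).2 ⟨γ.val 0 0 * e, c * e, ?_⟩, ?_⟩
  · rw [← mul_assoc, hD]
    linear_combination he
  · rw [← mul_assoc, mul_comm (γ.val 1 1), hD]
    linear_combination he
  · intro κ _ π hπ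
    have hπ' : π ((ℓ : ℕ) : Oz d t) = 0 := by rw [map_natCast, hπ]
    refine ⟨?_, ?_⟩
    · rw [← map_mul, hD, map_add, map_mul, hπ', zero_mul, add_zero]
    · have h1 : γ.val 0 0 * star (γ.val 0 0) * (γ.val 1 1 * star (γ.val 1 1)) =
          (γ.val 0 0 * γ.val 1 1) * star (γ.val 0 0 * γ.val 1 1) := by
        rw [star_mul]
        ring
      rw [← map_mul, h1, hD, map_mul, star_add, star_mul, star_natCast, map_add, map_add, map_mul, map_mul, hπ',
        zero_mul, mul_zero, add_zero, add_zero, ← map_mul, hNRU d t hE _ hunit, map_one]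

end Pool.Agent.OE
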